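import Pool.Agent.Y722.LS.Gen

/-!
# `L₂(s)` near `s = 2` for most members of a linear system of surfaces, and higher dimensions
-/

set_option autoImplicit false

namespace Pool.Agent.Results.MP_1f4fc7_nt.LinearSystems

open Pool.Agent.Y722.HS Pool.Agent.Y722.LS

/-- Mean square over the members of height at most `H` of a linear system of hypersurfaces in
`ℙ^{2m+1}`: at the distance `ε` from the edge of convergence the L-function of the middle cohomology
behaves as if it had a pole of order `1 + e` there, where `e` is the number of the components of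
dimension `m` of the base locus, for all `ε` between `1 / log H` and `1`. -/
theorem result {m d : ℕ} (hd : 1 ≤ d) {ι : Type} [Fintype ι] [DecidableEq ι]
    (f : ι → MvPolynomial (Fin (2 * m + 2)) ℤ) (hf : ∀ i, (f i).IsHomogeneous d)
    (c₀ : ι → ℤ) (hs : IsSmooth (lform (n := 2 * m + 1) f (fun i => (c₀ i : ℂ)))) (p₀ : ℕ)
    (hsep : ∀ p : ℕ, p.Prime → p₀ ≤ p → Separates (n := 2 * m + 1) f p) (e C₀ : ℝ)
    (hZ : ∀ p : ℕ, p.Prime → p₀ ≤ p → |zc f p - e * (p : ℝ) ^ m| ≤ C₀ * (p : ℝ) ^ ((m : ℝ) - 1 / 2))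
    (b : ℕ) : ∃ C : ℝ, ∀ H : ℕ, 2 ≤ H → ∀ S ⊆ box ι H, ∀ (α : (ι → ℤ) → ℕ → Fin b → ℂ)
      (ε : (ι → ℤ) → ℝ), (∀ c ∈ S, IsFrobenius f b c (α c)) →
      (∀ c ∈ S, 1 / Real.log H ≤ ε c ∧ ε c ≤ 1) →
      ∑ c ∈ S, (Real.log ‖LP (α c) (m + 1 + ε c)‖ - (1 + e) * Real.log (1 / ε c)) ^ 2 ≤
        C * (box ι H).card :=
  mean_square' hd f hf c₀ hs p₀ hsep e C₀ hZ b

end Pool.Agent.Results.MP_1f4fc7_nt.LinearSystems
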