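import Pool.Agent.Y722.EP.Main

/-!
# The pole of `L₂` at `s = 2` for products with elliptic curves over the rationals

`Y` is a smooth projective variety over a number field `K` and `E` runs through modular elliptic curves
over `ℚ`, no two of them isogenous.  By Künneth `H²(Y × E)` is the sum of `H²(Y)`, the line `H²(E)` and
`H¹(Y) ⊗ H¹(E)`, and `L₂(s, Y × E)` should have a pole of order one more than `L₂(s, Y)` at `s = 2`,
unless `E` is an isogeny factor of the Albanese variety of `Y` over `K`.  The proof shows that the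
normalised Hecke eigenvalues of the newforms of the curves are orthogonal from one side, by an argument
of Rankin and Selberg for the forms `p f(pz) ± g(z)` and `f(z) ± p g(pz)` of level `N p`, which the
Atkin-Lehner element of determinant `p` exchanges.  The definitions are in `Pool.Agent.Y722.EP.Defs` and
`Pool.Agent.W353.EF.Defs`.
-/

set_option autoImplicit false

namespace Pool.Agent.Results.MP_1f4fc7_nt.ModularEllipticFactors

open NumberField IsDedekindDomain Filter Topology Polynomial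
open Pool.Agent.W353.EF (LFun size HasOrder IsEulerSystem)
open Pool.Agent.Y722.EP (IsModular NotIsogenous IsProductSystem)

/-- **Products with elliptic curves over `ℚ`.**  Let `Y` be a projective variety of dimension `d ≥ 1`
over a number field `K`, given by the equations `X`, with Betti numbers `b₁`, `b₂`, and let
`E_i : y² = x³ + a_i x + b_i`, `i ∈ ι`, be modular elliptic curves over `ℚ`, pairwise not isogenous.
Let `x_i(ε)` be `log |L₂(2 + ε, Y × E_i)| / log(1/ε) - log |L₂(2 + ε, Y)| / log(1/ε) - 1`.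
1. (No continuation is assumed.)  For every finite set `J` of indices, `η > 0` and all small `ε > 0`,
the sum of `x_i(ε)²` over the `i ∈ J` with `x_i(ε) > 0` is at most `b₁² [K : ℚ] + η`, and the sum over the
`i ∈ J` with `x_i(ε) < 0` is at most `b₁² [K : ℚ] + η`.
2. Suppose that `L₂(s, Y)` and all `L₂(s, Y × E_i)` have meromorphic continuations to neighbourhoods of
`s = 2`, with poles of order `r₀` and `r_i`.  Then `r_i > r₀ + 1` for at most `b₁² [K : ℚ]` indices,
`r_i < r₀ + 1` for at most `b₁² [K : ℚ]` indices, and `r_i = r₀ + 1` for all others. -/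
theorem result (K : Type) [Field K] [NumberField K] (n d b₁ b₂ : ℕ) (hd : 1 ≤ d)
    (X : Set (MvPolynomial (Fin n) (𝓞 K))) (ι : Type) (a b : ι → ℤ)
    (hΔ : ∀ i, 4 * a i ^ 3 + 27 * b i ^ 2 ≠ 0) (hmod : ∀ i, IsModular (a i) (b i))
    (hne : ∀ i j, i ≠ j → NotIsogenous (a i) (b i) (a j) (b j))
    (B₀ : HeightOneSpectrum (𝓞 K) → ℂ[X]) (h₀ : IsEulerSystem X d 2 b₂ B₀)
    (B : ι → HeightOneSpectrum (𝓞 K) → ℂ[X])
    (hB : ∀ i, IsProductSystem X d b₁ b₂ (a i) (b i) (B i)) :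
    (∀ (J : Finset ι) (η : ℝ), 0 < η → ∀ᶠ ε : ℝ in 𝓝[>] 0,
      LFun B₀ (((2 : ℕ) : ℂ) / 2 + 1 + ε) ≠ 0 ∧
      (∀ i ∈ J, LFun (B i) (((2 : ℕ) : ℂ) / 2 + 1 + ε) ≠ 0) ∧
      ∑ i ∈ J, (max (size 2 (B i) ε - size 2 B₀ ε - 1) 0) ^ 2 ≤
        (b₁ : ℝ) ^ 2 * Module.finrank ℚ K + η ∧
      ∑ i ∈ J, (max (1 + size 2 B₀ ε - size 2 (B i) ε) 0) ^ 2 ≤
        (b₁ : ℝ) ^ 2 * Module.finrank ℚ K + η) ∧
    ∀ (r₀ : ℤ) (r : ι → ℤ), HasOrder 2 B₀ (-r₀) → (∀ i, HasOrder 2 (B i) (-r i)) →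
      {i | r i ≠ r₀ + 1}.Finite ∧
      {i | r₀ + 1 < r i}.ncard ≤ b₁ ^ 2 * Module.finrank ℚ K ∧
      {i | r i < r₀ + 1}.ncard ≤ b₁ ^ 2 * Module.finrank ℚ K := by
  refine ⟨fun J η hη => ?_, fun r₀ r hr₀ hr =>
    Pool.Agent.Y722.EP.main_card hd hΔ hmod hne h₀ hB hr₀ hr⟩
  obtain ⟨h1, h2⟩ := Pool.Agent.Y722.EP.main_size hd hΔ hmod hne h₀ hB J hη
  have h3 := Pool.Agent.Y722.EP.base_ne hd h₀
  have h4 : ∀ᶠ ε : ℝ in 𝓝[>] 0, ∀ i ∈ J, LFun (B i) (((2 : ℕ) : ℂ) / 2 + 1 + ε) ≠ 0 := by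
    rw [Filter.eventually_all_finset]
    exact fun i _ => (Pool.Agent.Y722.EP.link hd (a i) (b i) h₀ (hB i)).1
  filter_upwards [h1, h2, h3, h4] with ε g1 g2 g3 g4
  refine ⟨g3, g4, g1, le_trans (le_of_eq (Finset.sum_congr rfl fun i _ => ?_)) g2⟩
  unfold Pool.Agent.Y722.EP.xs
  congr 2
  ring

end Pool.Agent.Results.MP_1f4fc7_nt.ModularEllipticFactors
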