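import Pool.Agent.Y722.PC.Products

/-!
# `L₂(s)` near `s = 2` for products of plane curves
-/

set_option autoImplicit false

namespace Pool.Agent.Results.MP_1f4fc7_nt.RandomCurveProducts

open Pool.Agent.Y722.HS Pool.Agent.Y722.LS Pool.Agent.Y722.PC

/-- Mean square over the `k`-tuples of members of height at most `H` of `k` linear systems of plane
curves, for a product of `r` factors chosen among the `k` curves by `σ`: at the distance `ε` from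
`s = 2` the L-function of `H²` of the product behaves as if it had a pole of order
`r + #{i < j : σ i = σ j}` there, for all `ε` between `1 / log H` and `1`. -/
theorem result {k r : ℕ} {ι : Fin k → Type} [∀ i, Fintype (ι i)] [∀ i, DecidableEq (ι i)]
    (f : ∀ i, ι i → MvPolynomial (Fin 3) ℤ) (d : Fin k → ℕ) (hd : ∀ i, 1 ≤ d i)
    (hf : ∀ i j, (f i j).IsHomogeneous (d i)) (c₀ : ∀ i, ι i → ℤ)
    (hsm : ∀ i, IsSmooth (lform (n := 2) (f i) (fun j => (c₀ i j : ℂ)))) (p₀ : ℕ) (C₀ : ℝ)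
    (hs : ∀ i, ∀ p : ℕ, p.Prime → p₀ ≤ p → Separates4 (n := 2) (f i) p)
    (hZ : ∀ i, ∀ p : ℕ, p.Prime → p₀ ≤ p → (bcone (n := 2) (f i) p : ℝ) ≤ C₀ * p)
    (σ : Fin r → Fin k) (b : ℕ) : ∃ C : ℝ, ∀ H : ℕ, 2 ≤ H → ∀ S ⊆ box (Σ i, ι i) H,
      ∀ (γ : ((Σ i, ι i) → ℤ) → ℕ → Fin b → ℂ) (ε : ((Σ i, ι i) → ℤ) → ℝ),
      (∀ c ∈ S, IsFrobenius2 f σ b c (γ c)) →
      (∀ c ∈ S, 1 / Real.log H ≤ ε c ∧ ε c ≤ 1) →
      ∑ c ∈ S, (Real.log ‖LP (γ c) (2 + ε c)‖ - (r + eqPairs σ) * Real.log (1 / ε c)) ^ 2 ≤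
        C * (box (Σ i, ι i) H).card :=
  products hd hf c₀ hsm p₀ hs hZ σ b

end Pool.Agent.Results.MP_1f4fc7_nt.RandomCurveProducts
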