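import Pool.Agent.Y139.SM.Rigid3

/-!
# Tate's conjecture on the pole: one exceptional Artin representation, or none over any number field

`X` is a smooth projective variety over a number field `K` and `V` the space of the classes of the
algebraic cycles of codimension `m` defined over the algebraic closure; for `m = 1`, the question, it is
`NS(X) ⊗ ℚ`.  `T` is the complement of `V(-m)` in `H^{2m}(X)`, of dimension `s = N - dim V` (the
transcendental part).  For every number field `F ⊇ K`, `L(H^{2m}(X_F), s)` is an Euler product over the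
primes of `F`, and Tate's conjecture says that `log |L(m + 1 + ε)| / log(1/ε)` tends to the rank of the
group of the classes defined over `F` (if there is a continuation, this says that there is a pole of
this order).
The definitions are in `Pool.Agent.Y139.SM.Defs`, `Pool.Agent.W353.AT.TDefs`,
`Pool.Agent.W353.AT.Defs`, `Pool.Agent.W353.TD.Defs`, `Pool.Agent.W353.EH.Defs` and
`Pool.Agent.W353.EF.Defs`.
-/

set_option autoImplicit false

namespace Pool.Agent.Results.MP_1f4fc7_nt.TateDichotomy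

open NumberField IsDedekindDomain Filter Topology Polynomial
open Pool.Agent.W353.EF (LFun)
open Pool.Agent.W353.EH (edgePoint size)
open Pool.Agent.W353.TD (IsPart rank)
open Pool.Agent.W353.AT (IsArtin IsTwistedSystem twistRank TwistDefect fixedDim)
open Pool.Agent.Y139.SM (IsTensorSystem TensorPole)

/-- Write `x(M)` for the quotient `log |L(M, edge + ε)| / log(1/ε)`, a function of `ε > 0`.
* (no continuation is assumed)  Let `χ` be an irreducible Artin representation of dimension `n`, `ψ` and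
  `θ` Artin representations with `tr θ = (tr χ)^r tr ψ`, `n'` the dimension of `ψ`, and `e = ±1`.  For all
  `δ, η > 0` and all small `ε > 0` the number
  `D = x(T ⊗ T) + 2 e (x(H^{2m}(X) ⊗ χ) - dim (V ⊗ χ)^G) + 1` is at least `-η`, and
  `|x(T^{⊗ r} ⊗ ψ) - (-e)^r dim θ^G| ≤ r (s + n)^{r - 1} n' (δ + D / δ) / 2 + η`.
* **Dichotomy.**  Suppose that `x(T ⊗ T)` tends to `k₂ ≤ 1` (at most a simple pole), and that for every
  irreducible Artin representation `χ` of `K` there is a defect `δ_χ`, that is,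
  `x(H^{2m}(X) ⊗ χ) → dim (V ⊗ χ)^G - δ_χ` with an integer `δ_χ`.  Then either Tate's conjecture on the
  pole holds for `X` over all number fields `F ⊇ K`, or there is exactly one irreducible `χ` with
  `δ_χ ≠ 0`; its character is real, `δ_χ = ±1`, `k₂ = 1`; over every number field `F ⊇ K` the defect is
  `δ_χ dim χ^{Gal(K̄/F)}`; and `x(T^{⊗ r} ⊗ ψ)` tends to `(-δ_χ)^r dim θ^G` for all `r`, `ψ` and `θ` with
  `tr θ = (tr χ)^r tr ψ`. -/
theorem result (K : Type) [Field K] [NumberField K] (l d m N : ℕ)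
    (X : Set (MvPolynomial (Fin l) (𝓞 K))) (V : Type) [AddCommGroup V] [Module ℚ V]
    [FiniteDimensional ℚ V] (ρ : Representation ℚ Gal(AlgebraicClosure K/K) V) (hm : m ≤ d)
    (hV : IsPart X d m N ρ) :
    (∀ (n : ℕ) (χ : Representation ℂ Gal(AlgebraicClosure K/K) (Fin n → ℂ)), IsArtin χ →
      χ.IsIrreducible → ∀ B₁ B₂ : HeightOneSpectrum (𝓞 K) → ℂ[X],
      IsTwistedSystem X d (2 * m) N χ 0 B₁ →
      IsTensorSystem X d m N ρ 2
        (1 : Representation ℂ Gal(AlgebraicClosure K/K) (Fin 1 → ℂ)) B₂ →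
      ∀ (r n' n'' : ℕ) (ψ : Representation ℂ Gal(AlgebraicClosure K/K) (Fin n' → ℂ))
        (θ : Representation ℂ Gal(AlgebraicClosure K/K) (Fin n'' → ℂ))
        (B : HeightOneSpectrum (𝓞 K) → ℂ[X]), IsArtin ψ → IsArtin θ →
        (∀ g, θ.character g = χ.character g ^ r * ψ.character g) →
        IsTensorSystem X d m N ρ r ψ B →
      ∀ e : ℝ, e = 1 ∨ e = -1 → ∀ δ η : ℝ, 0 < δ → 0 < η → ∀ᶠ ε : ℝ in 𝓝[>] 0,
        0 ≤ size (2 * (2 * m)) 0 B₂ ε +
          2 * e * (size (2 * m) 0 B₁ ε - twistRank ρ χ) + 1 + η ∧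
        |size (2 * (r * m)) 0 B ε - (-e) ^ r * Module.finrank ℂ θ.invariants| ≤
          r * (((N - Module.finrank ℚ V : ℕ) : ℝ) + n) ^ (r - 1) * n' *
            ((δ + (size (2 * (2 * m)) 0 B₂ ε +
              2 * e * (size (2 * m) 0 B₁ ε - twistRank ρ χ) + 1) / δ) / 2) + η) ∧
    (∀ k₂ : ℕ, k₂ ≤ 1 →
      TensorPole X d m N ρ 2 (1 : Representation ℂ Gal(AlgebraicClosure K/K) (Fin 1 → ℂ)) k₂ →
      (∀ (n : ℕ) (χ : Representation ℂ Gal(AlgebraicClosure K/K) (Fin n → ℂ)), IsArtin χ →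
        χ.IsIrreducible → ∃ δ : ℤ, TwistDefect X d m N ρ χ δ) →
      (∀ (F : IntermediateField K (AlgebraicClosure K)) [NumberField F]
        (B : HeightOneSpectrum (𝓞 F) → ℂ[X]), Pool.Agent.W353.EF.IsEulerSystem X d (2 * m) N B →
        Tendsto (Pool.Agent.W353.EF.size (2 * m) B) (𝓝[>] 0) (𝓝 (rank ρ F : ℝ))) ∨
      ∃ (n : ℕ) (χ : Representation ℂ Gal(AlgebraicClosure K/K) (Fin n → ℂ)) (δ : ℤ),
        IsArtin χ ∧ χ.IsIrreducible ∧ (∀ g, (χ.character g).im = 0) ∧ (δ = 1 ∨ δ = -1) ∧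
        k₂ = 1 ∧ TwistDefect X d m N ρ χ δ ∧
        (∀ (n' : ℕ) (χ' : Representation ℂ Gal(AlgebraicClosure K/K) (Fin n' → ℂ)), IsArtin χ' →
          χ'.IsIrreducible → IsEmpty (χ'.Equiv χ) → TwistDefect X d m N ρ χ' 0) ∧
        (∀ (F : IntermediateField K (AlgebraicClosure K)) [NumberField F]
          (B : HeightOneSpectrum (𝓞 F) → ℂ[X]), Pool.Agent.W353.EF.IsEulerSystem X d (2 * m) N B →
          Tendsto (Pool.Agent.W353.EF.size (2 * m) B) (𝓝[>] 0)
            (𝓝 ((rank ρ F : ℝ) - δ * fixedDim χ F))) ∧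
        ∀ (r n' n'' : ℕ) (ψ : Representation ℂ Gal(AlgebraicClosure K/K) (Fin n' → ℂ))
          (θ : Representation ℂ Gal(AlgebraicClosure K/K) (Fin n'' → ℂ))
          (B : HeightOneSpectrum (𝓞 K) → ℂ[X]), IsArtin ψ → IsArtin θ →
          (∀ g, θ.character g = χ.character g ^ r * ψ.character g) →
          IsTensorSystem X d m N ρ r ψ B →
          Tendsto (size (2 * (r * m)) 0 B) (𝓝[>] 0)
            (𝓝 ((-δ : ℤ) ^ r * Module.finrank ℂ θ.invariants))) :=
  ⟨fun _ _ hχ hirr _ _ hB₁ hB₂ r _ _ _ _ _ hψ hθ hc hB _ he _ _ hδ hη =>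
    Pool.Agent.Y139.SM.rigidT hm hV hχ hirr hB₁ hB₂ he r hψ hθ hc hB hδ hη,
  fun _ hk₂ h2 H => Pool.Agent.Y139.SM.dichotomy hm hV h2 hk₂ H⟩

end Pool.Agent.Results.MP_1f4fc7_nt.TateDichotomy
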